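import Pool.Agent.Helper580_sidon.AllR

set_option autoImplicit false

/-- For every odd prime `p` and every `k` there is `C > 0` such that for all `r` and all odd
`m_1, …, m_k` the group `(Z/p)^r × Z/m_1 × ⋯ × Z/m_k` contains a Sidon set with at least
`C n^(10/21)` elements, `n` being its order. -/
theorem Pool.Agent.Results.MP_644501_co.AllRanks.result :
    ∀ p : ℕ, p.Prime → p ≠ 2 → ∀ k : ℕ,
      ∃ C : ℝ, 0 < C ∧ ∀ (r : ℕ) (m : Fin k → ℕ), (∀ i, Odd (m i)) →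
        ∃ A : Finset ((Fin r → ZMod p) × ((i : Fin k) → ZMod (m i))),
          (∀ a ∈ A, ∀ b ∈ A, ∀ c ∈ A, ∀ d ∈ A,
              a + b = c + d → (a = c ∧ b = d) ∨ (a = d ∧ b = c)) ∧
          C * ((p : ℝ) ^ r * ∏ i, (m i : ℝ)) ^ (10 / 21 : ℝ) ≤ (A.card : ℝ) := by
  intro p hp hp2 k
  obtain ⟨C, hC, h⟩ := Pool.Agent.Helper580_sidon.all_ranks p hp hp2 k
  refine ⟨C, hC, ?_⟩
  intro r m hm
  obtain ⟨A, _, h2, h3⟩ := h r m hm
  exact ⟨A, h2, h3⟩
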