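import Pool.Agent.Helper580_sidon.ElemCyc

set_option autoImplicit false

/-- For every odd prime `p` there is `C > 0` such that `(Z/p)^r × Z/N` contains a Sidon set with
at least `C √n / (1 + log n)` elements, `n = p^r N`, whenever `p^r ≤ N^(p-1)`. -/
theorem Pool.Agent.Results.MP_644501_co.ElemCyclic.result :
    ∀ p : ℕ, p.Prime → p ≠ 2 →
      ∃ C : ℝ, 0 < C ∧ ∀ r N : ℕ, 1 ≤ N → p ^ r ≤ N ^ (p - 1) →
        ∃ A : Finset ((Fin r → ZMod p) × ZMod N),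
          (∀ a ∈ A, ∀ b ∈ A, ∀ c ∈ A, ∀ d ∈ A,
              a + b = c + d → (a = c ∧ b = d) ∨ (a = d ∧ b = c)) ∧
          C * Real.sqrt ((p : ℝ) ^ r * N) / (1 + Real.log ((p : ℝ) ^ r * N)) ≤ (A.card : ℝ) := by
  intro p hp hp2
  obtain ⟨C, hC, h⟩ := Pool.Agent.Helper580_sidon.elem_cyc p hp hp2
  refine ⟨C, hC, ?_⟩
  intro r N hN hrN
  obtain ⟨A, _, h2, h3⟩ := h r N hN hrN
  exact ⟨A, h2, h3⟩
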