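import Pool.Agent.Helper580_sidon.SquareExp

set_option autoImplicit false

/-- For `p = 3` and `p = 5` there is `C > 0` such that for every `r` the group `(Z/p^2)^r`, whose
order is `n = p^(2r)`, contains a Sidon set with at least `C √n = C p^r` elements. -/
theorem Pool.Agent.Results.MP_644501_co.SquareExponent.result :
    ∀ p : ℕ, (p = 3 ∨ p = 5) →
      ∃ C : ℝ, 0 < C ∧ ∀ r : ℕ,
        ∃ A : Finset (Fin r → ZMod (p ^ 2)),
          (∀ a ∈ A, ∀ b ∈ A, ∀ c ∈ A, ∀ d ∈ A,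
              a + b = c + d → (a = c ∧ b = d) ∨ (a = d ∧ b = c)) ∧
          C * (p : ℝ) ^ r ≤ (A.card : ℝ) := by
  intro p hp
  rcases hp with rfl | rfl
  · refine ⟨1 / 2, by norm_num, ?_⟩
    intro r
    obtain ⟨A, _, h2, h3⟩ := Pool.Agent.Helper580_sidon.nine r
    refine ⟨A, h2, ?_⟩
    push_cast
    linarith
  · refine ⟨2 / 25, by norm_num, ?_⟩
    intro r
    obtain ⟨A, _, h2, h3⟩ := Pool.Agent.Helper580_sidon.twentyfive r
    refine ⟨A, h2, ?_⟩
    push_cast
    exact h3
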