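import Pool.Agent.Helper580_sidon.Final

set_option autoImplicit false

/-- There is an absolute constant `C > 0` such that every finite abelian group `G` of odd order
`n` contains a Sidon set with at least `C * n ^ (2/5)` elements. -/
theorem Pool.Agent.Results.MP_644501_co.TwoFifths.result :
    ∃ C : ℝ, 0 < C ∧
      ∀ (G : Type) [AddCommGroup G] [Fintype G],
        Odd (Fintype.card G) →
        ∃ A : Finset G,
          (∀ a ∈ A, ∀ b ∈ A, ∀ c ∈ A, ∀ d ∈ A,
              a + b = c + d → (a = c ∧ b = d) ∨ (a = d ∧ b = c)) ∧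
          C * (Fintype.card G : ℝ) ^ (2 / 5 : ℝ) ≤ (A.card : ℝ) := by
  refine ⟨1 / (7200 * (29 : ℝ) ^ 30), by positivity, ?_⟩
  intro G _ _ hodd
  obtain ⟨A, _, h2, h3⟩ := Pool.Agent.Helper580_sidon.two_fifths G hodd
  exact ⟨A, h2, h3⟩
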